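import Pool.Agent.Helper12.RQ.Goals

/-!
# Self-similar gluing of star functions
-/

set_option autoImplicit false

open Set

namespace Pool.Agent.Helper95.RQ

open Pool.Agent.Helper12.RQ

theorem exists_j {a : ℝ} (ha : 0 < a) (ha1 : a < 1) {x : ℝ} (hx : 0 < x) :
    ∃ j : ℤ, a ^ (j + 1) < x ∧ x ≤ a ^ j := by
  obtain ⟨n, hn⟩ := exists_mem_Ioc_zpow hx (one_lt_inv₀ ha |>.2 ha1)
  refine ⟨-(n + 1), ?_, ?_⟩
  · have h : a ^ (-(n + 1) + 1) = a⁻¹ ^ n := by
      rw [inv_zpow', show -(n + 1) + 1 = -n by ring]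
    rw [h]; exact hn.1
  · rw [zpow_neg, ← inv_zpow]; exact hn.2

/-- the index is determined -/
theorem j_unique {a : ℝ} (ha : 0 < a) (ha1 : a < 1) {x : ℝ} {j k : ℤ}
    (hj : a ^ (j + 1) < x) (hj' : x ≤ a ^ j) (hk : a ^ (k + 1) < x) (hk' : x ≤ a ^ k) : j = k := by
  have h1 : a ^ (j + 1) < a ^ k := lt_of_lt_of_le hj hk'
  have h2 : a ^ (k + 1) < a ^ j := lt_of_lt_of_le hk hj'
  have h3 : k < j + 1 := (zpow_lt_zpow_iff_right_of_lt_one₀ ha ha1).1 h1
  have h4 : j < k + 1 := (zpow_lt_zpow_iff_right_of_lt_one₀ ha ha1).1 h2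
  omega

theorem glue : StmtGLUE := by
  intro n a c l R₀ ha ha1 hc hc1 hl hlip hslope h1 h2
  have hex : ∀ y : E n, y ≠ 0 → ∃ j : ℤ, a ^ (j + 1) < ‖y‖ ∧ ‖y‖ ≤ a ^ j := fun y hy =>
    exists_j ha ha1 (norm_pos_iff.2 hy)
  choose! J hJ using hex
  have hpz : ∀ j : ℤ, 0 < a ^ j := fun j => zpow_pos ha j
  have hsucc : ∀ j : ℤ, a ^ (j + 1) = a ^ j * a := fun j => zpow_add_one₀ ha.ne' j
  have hneg : ∀ j : ℤ, a ^ (-j) * a ^ j = 1 := fun j => by
    rw [← zpow_add₀ ha.ne']; simp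
  have hnorm : ∀ (j : ℤ) (y : E n), ‖a ^ (-j) • y‖ = a ^ (-j) * ‖y‖ := fun j y => by
    rw [norm_smul, Real.norm_of_nonneg (hpz _).le]
  set R : E n → ℝ := fun y => if y = 0 then 0 else a ^ (J y) * R₀ (a ^ (-(J y)) • y) with hR
  have hR0 : R 0 = 0 := by simp [hR]
  -- formula on the closed annulus
  have hform : ∀ (j : ℤ) (y : E n), a ^ (j + 1) ≤ ‖y‖ → ‖y‖ ≤ a ^ j →
      R y = a ^ j * R₀ (a ^ (-j) • y) := by
    intro j y hy1 hy2
    have hy0 : y ≠ 0 := by
      rw [← norm_pos_iff]; exact lt_of_lt_of_le (hpz _) hy1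
    have hRy : R y = a ^ (J y) * R₀ (a ^ (-(J y)) • y) := by simp [hR, hy0]
    rcases hy1.lt_or_eq with hlt | heq
    · have : J y = j := j_unique ha ha1 (hJ y hy0).1 (hJ y hy0).2 hlt hy2
      rw [hRy, this]
    · have hJ' : J y = j + 1 := by
        refine j_unique ha ha1 (hJ y hy0).1 (hJ y hy0).2 ?_ heq.ge
        rw [← heq, hsucc (j + 1)]
        exact mul_lt_of_lt_one_right (hpz _) ha1
      rw [hRy, hJ']
      have e1 : R₀ (a ^ (-(j + 1)) • y) = 1 := by
        apply h1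
        rw [hnorm, ← heq, hneg]
      have e2 : R₀ (a ^ (-j) • y) = a := by
        apply h2
        rw [hnorm, ← heq, hsucc, ← mul_assoc, hneg, one_mul]
      rw [e1, e2, hsucc, mul_one]
  -- values on the spheres
  have hsph : ∀ (j : ℤ) (y : E n), ‖y‖ = a ^ j → R y = ‖y‖ := by
    intro j y hy
    have hle : a ^ (j + 1) ≤ ‖y‖ := by
      rw [hy, hsucc]; exact (mul_lt_of_lt_one_right (hpz _) ha1).le
    rw [hform j y hle hy.le, h1 _ (by rw [hnorm, hy, hneg]), mul_one, hy]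
  have hlipA : ∀ (j : ℤ) (y z : E n), a ^ (j + 1) ≤ ‖y‖ → ‖y‖ ≤ a ^ j →
      a ^ (j + 1) ≤ ‖z‖ → ‖z‖ ≤ a ^ j → |R y - R z| ≤ l * ‖y - z‖ := by
    intro j y z hy1 hy2 hz1 hz2
    have key : ∀ w : E n, a ^ (j + 1) ≤ ‖w‖ → ‖w‖ ≤ a ^ j →
        a ≤ ‖a ^ (-j) • w‖ ∧ ‖a ^ (-j) • w‖ ≤ 1 := by
      intro w hw1 hw2
      rw [hnorm]
      constructor
      · calc a = a ^ (-j) * a ^ (j + 1) := by rw [hsucc, ← mul_assoc, hneg, one_mul]
          _ ≤ a ^ (-j) * ‖w‖ := mul_le_mul_of_nonneg_left hw1 (hpz _).le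
      · calc a ^ (-j) * ‖w‖ ≤ a ^ (-j) * a ^ j := mul_le_mul_of_nonneg_left hw2 (hpz _).le
          _ = 1 := hneg j
    have := hlip _ _ (key y hy1 hy2).1 (key y hy1 hy2).2 (key z hz1 hz2).1 (key z hz1 hz2).2
    rw [hform j y hy1 hy2, hform j z hz1 hz2, ← mul_sub, abs_mul, abs_of_pos (hpz j)]
    rw [← smul_sub, hnorm] at this
    calc a ^ j * |R₀ (a ^ (-j) • y) - R₀ (a ^ (-j) • z)|
        ≤ a ^ j * (l * (a ^ (-j) * ‖y - z‖)) := mul_le_mul_of_nonneg_left this (hpz _).le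
      _ = (a ^ (-j) * a ^ j) * (l * ‖y - z‖) := by ring
      _ = l * ‖y - z‖ := by rw [hneg, one_mul]
  have hslA : ∀ (j : ℤ) (y : E n) (t : ℝ), t ∈ Icc (0 : ℝ) 1 → a ^ (j + 1) ≤ ‖t • y‖ →
      ‖y‖ ≤ a ^ j → c * (1 - t) * ‖y‖ ≤ R y - R (t • y) := by
    intro j y t ht hty hy
    have hle : ‖t • y‖ ≤ ‖y‖ := by
      rw [norm_smul, Real.norm_of_nonneg ht.1]
      exact mul_le_of_le_one_left (norm_nonneg _) ht.2
    have e1 : ‖a ^ (-j) • y‖ ≤ 1 := by
      rw [hnorm]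
      calc a ^ (-j) * ‖y‖ ≤ a ^ (-j) * a ^ j := mul_le_mul_of_nonneg_left hy (hpz _).le
        _ = 1 := hneg j
    have e2 : a ≤ ‖t • a ^ (-j) • y‖ := by
      rw [smul_comm, hnorm]
      calc a = a ^ (-j) * a ^ (j + 1) := by rw [hsucc, ← mul_assoc, hneg, one_mul]
        _ ≤ a ^ (-j) * ‖t • y‖ := mul_le_mul_of_nonneg_left hty (hpz _).le
    have := hslope _ e1 t ht e2
    rw [hform j y (hty.trans hle) hy, hform j (t • y) hty (hle.trans hy), ← mul_sub]
    rw [hnorm, smul_comm t] at this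
    calc c * (1 - t) * ‖y‖ = a ^ j * (c * (1 - t) * (a ^ (-j) * ‖y‖)) := by
          rw [show a ^ j * (c * (1 - t) * (a ^ (-j) * ‖y‖)) =
            (a ^ (-j) * a ^ j) * (c * (1 - t) * ‖y‖) by ring, hneg, one_mul]
      _ ≤ _ := mul_le_mul_of_nonneg_left this (hpz _).le
  have hJle : ∀ y z : E n, y ≠ 0 → z ≠ 0 → ‖z‖ ≤ ‖y‖ → J y ≤ J z := by
    intro y z hy hz hzy
    have h1 : a ^ (J z + 1) < a ^ (J y) := ((hJ z hz).1.trans_le hzy).trans_le (hJ y hy).2
    have h3 : J y < J z + 1 := (zpow_lt_zpow_iff_right_of_lt_one₀ ha ha1).1 h1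
    omega
  -- Lipschitz, main case
  have hlipm : ∀ y z : E n, y ≠ 0 → z ≠ 0 → ‖z‖ ≤ ‖y‖ → |R y - R z| ≤ l * ‖y - z‖ := by
    intro y z hy hz hzy
    rcases (hJle y z hy hz hzy).eq_or_lt with heq | hlt
    · refine hlipA (J y) y z (hJ y hy).1.le (hJ y hy).2 ?_ ?_
      · rw [heq]; exact (hJ z hz).1.le
      · rw [heq]; exact (hJ z hz).2
    · have hk : a ^ (J z) ≤ a ^ (J y + 1) :=
        (zpow_le_zpow_iff_right_of_lt_one₀ ha ha1).2 (by omega)
      set g : ℝ → ℝ := fun s => ‖y + s • (z - y)‖ with hg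
      have hgc : Continuous g := by fun_prop
      have hg0 : g 0 = ‖y‖ := by simp [hg]
      have hg1 : g 1 = ‖z‖ := by simp [hg]
      obtain ⟨s, hs, hgs⟩ : ∃ s ∈ Icc (0 : ℝ) 1, g s = a ^ (J y + 1) := by
        have := intermediate_value_Icc' (zero_le_one) hgc.continuousOn (a := (0:ℝ)) (b := 1)
        have hmem : a ^ (J y + 1) ∈ Icc (g 1) (g 0) := by
          rw [hg0, hg1]
          exact ⟨(hJ z hz).2.trans hk, (hJ y hy).1.le⟩
        obtain ⟨s, hs, h⟩ := this hmem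
        exact ⟨s, hs, h⟩
      obtain ⟨t, ht, hgt⟩ : ∃ t ∈ Icc s 1, g t = a ^ (J z) := by
        have := intermediate_value_Icc' hs.2 hgc.continuousOn (a := s) (b := 1)
        have hmem : a ^ (J z) ∈ Icc (g 1) (g s) := by
          rw [hg1, hgs]
          exact ⟨(hJ z hz).2, hk⟩
        obtain ⟨t, ht, h⟩ := this hmem
        exact ⟨t, ht, h⟩
      set p : E n := y + s • (z - y) with hp
      set q : E n := y + t • (z - y) with hq
      have hpn : ‖p‖ = a ^ (J y + 1) := hgs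
      have hqn : ‖q‖ = a ^ (J z) := hgt
      have hpow : a ^ (J y + 1) ≤ a ^ (J y) := by
        rw [hsucc]; exact (mul_lt_of_lt_one_right (hpz _) ha1).le
      have hpow' : a ^ (J z + 1) ≤ a ^ (J z) := by
        rw [hsucc]; exact (mul_lt_of_lt_one_right (hpz _) ha1).le
      have e1 : |R y - R p| ≤ l * ‖y - p‖ :=
        hlipA (J y) y p (hJ y hy).1.le (hJ y hy).2 hpn.ge (hpn.le.trans hpow)
      have e2 : |R p - R q| ≤ ‖p - q‖ := by
        rw [hsph _ p hpn, hsph _ q hqn]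
        exact abs_norm_sub_norm_le p q
      have e3 : |R q - R z| ≤ l * ‖q - z‖ :=
        hlipA (J z) q z (hpow'.trans hqn.ge) hqn.le (hJ z hz).1.le (hJ z hz).2
      have n1 : ‖y - p‖ = s * ‖y - z‖ := by
        rw [hp, show y - (y + s • (z - y)) = s • (y - z) by module, norm_smul, Real.norm_of_nonneg hs.1]
      have n2 : ‖p - q‖ = (t - s) * ‖y - z‖ := by
        rw [hp, hq, show y + s • (z - y) - (y + t • (z - y)) = (t - s) • (y - z) by
            module, norm_smul,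
          Real.norm_of_nonneg (by linarith [ht.1])]
      have n3 : ‖q - z‖ = (1 - t) * ‖y - z‖ := by
        rw [hq, show y + t • (z - y) - z = (1 - t) • (y - z) by module, norm_smul,
          Real.norm_of_nonneg (by linarith [ht.2])]
      have hts : ‖p - q‖ ≤ l * ((t - s) * ‖y - z‖) := by
        rw [n2]
        exact le_mul_of_one_le_left (mul_nonneg (by linarith [ht.1]) (norm_nonneg _)) hl
      calc |R y - R z| = |(R y - R p) + (R p - R q) + (R q - R z)| := by ring_nf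
        _ ≤ |R y - R p| + |R p - R q| + |R q - R z| := abs_add_three _ _ _
        _ ≤ l * (s * ‖y - z‖) + l * ((t - s) * ‖y - z‖) + l * ((1 - t) * ‖y - z‖) := by
            rw [n1] at e1; rw [n3] at e3
            linarith [e2.trans hts]
        _ = l * ‖y - z‖ := by ring
  -- the point of the ray on the inner sphere
  have hray : ∀ y : E n, y ≠ 0 → ∃ s ∈ Icc (0 : ℝ) 1, s * ‖y‖ = a ^ (J y + 1) ∧
      ‖s • y‖ = a ^ (J y + 1) := by
    intro y hy
    have hyp : 0 < ‖y‖ := norm_pos_iff.2 hy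
    refine ⟨a ^ (J y + 1) / ‖y‖, ⟨(div_pos (hpz _) hyp).le, ?_⟩, ?_, ?_⟩
    · rw [div_le_one hyp]; exact (hJ y hy).1.le
    · field_simp
    · rw [norm_smul, Real.norm_of_nonneg (div_pos (hpz _) hyp).le]
      field_simp
  have hlip0 : ∀ y : E n, |R y| ≤ l * ‖y‖ := by
    intro y
    by_cases hy : y = 0
    · subst hy; simp [hR0]
    obtain ⟨s, hs, hs1, hs2⟩ := hray y hy
    have hpow : a ^ (J y + 1) ≤ a ^ (J y) := by
      rw [hsucc]; exact (mul_lt_of_lt_one_right (hpz _) ha1).le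
    have e1 := hlipA (J y) y (s • y) (hJ y hy).1.le (hJ y hy).2 hs2.ge (hs2.le.trans hpow)
    have e2 := hsph _ _ hs2
    have n1 : ‖y - s • y‖ = (1 - s) * ‖y‖ := by
      rw [show y - s • y = (1 - s) • y by rw [sub_smul, one_smul], norm_smul,
        Real.norm_of_nonneg (by linarith [hs.2])]
    rw [n1] at e1
    have e3 : R (s • y) = s * ‖y‖ := by rw [e2, hs2, hs1]
    have h0 : 0 ≤ s * ‖y‖ := mul_nonneg hs.1 (norm_nonneg _)
    have h0' : s * ‖y‖ ≤ l * (s * ‖y‖) := le_mul_of_one_le_left h0 hl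
    rw [e3] at e1
    rw [abs_le] at e1 ⊢
    constructor
    · nlinarith [e1.1, mul_nonneg (zero_le_one.trans hl) (norm_nonneg y)]
    · nlinarith [e1.2]
  refine ⟨R, ⟨hc, hR0, ?_, ?_⟩, ?_, ?_⟩
  · intro y z
    by_cases hy : y = 0
    · subst hy
      rw [hR0, zero_sub, abs_neg, zero_sub, norm_neg]
      exact hlip0 z
    by_cases hz : z = 0
    · subst hz
      rw [hR0, sub_zero, sub_zero]
      exact hlip0 y
    rcases le_total ‖z‖ ‖y‖ with h | h
    · exact hlipm y z hy hz h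
    · rw [abs_sub_comm, norm_sub_rev]
      exact hlipm z y hz hy h
  · intro y t ht
    by_cases hy : y = 0
    · subst hy; simp
    have hyp : 0 < ‖y‖ := norm_pos_iff.2 hy
    obtain ⟨s, hs, hs1, hs2⟩ := hray y hy
    have A := hslA (J y) y s hs hs2.ge (hJ y hy).2
    have B : R (s • y) = s * ‖y‖ := by rw [hsph _ _ hs2, hs2, hs1]
    rcases ht.1.eq_or_lt with h0 | h0
    · rw [← h0, zero_smul, hR0]
      rw [B] at A
      have : c * (s * ‖y‖) ≤ s * ‖y‖ := mul_le_of_le_one_left (mul_nonneg hs.1 hyp.le) hc1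
      nlinarith
    · have hty : t • y ≠ 0 := smul_ne_zero h0.ne' hy
      have hle : ‖t • y‖ ≤ ‖y‖ := by
        rw [norm_smul, Real.norm_of_nonneg ht.1]
        exact mul_le_of_le_one_left (norm_nonneg _) ht.2
      rcases (hJle y (t • y) hy hty hle).eq_or_lt with heq | hlt
      · refine hslA (J y) y t ht ?_ (hJ y hy).2
        rw [heq]; exact (hJ _ hty).1.le
      · have hk : a ^ (J (t • y)) ≤ a ^ (J y + 1) :=
          (zpow_le_zpow_iff_right_of_lt_one₀ ha ha1).2 (by omega)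
        set r : ℝ := a ^ (J (t • y)) / ‖y‖ with hr
        have hrpos : 0 < r := div_pos (hpz _) hyp
        have hry : r * ‖y‖ = a ^ (J (t • y)) := by rw [hr]; field_simp
        have hrn : ‖r • y‖ = a ^ (J (t • y)) := by
          rw [norm_smul, Real.norm_of_nonneg hrpos.le, hry]
        have hrs : r ≤ s := by
          have : r * ‖y‖ ≤ s * ‖y‖ := by rw [hry, hs1]; exact hk
          exact le_of_mul_le_mul_right this hyp
        have htr : t ≤ r := by
          have h := (hJ _ hty).2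
          rw [norm_smul, Real.norm_of_nonneg ht.1, ← hry] at h
          exact le_of_mul_le_mul_right h hyp
        have B' : R (r • y) = r * ‖y‖ := by rw [hsph _ _ hrn, hrn, hry]
        have htr1 : t / r ∈ Icc (0 : ℝ) 1 := ⟨(div_pos h0 hrpos).le, (div_le_one hrpos).2 htr⟩
        have hsm : (t / r) • (r • y) = t • y := by
          rw [smul_smul, div_mul_cancel₀ _ hrpos.ne']
        have C := hslA (J (t • y)) (r • y) (t / r) htr1 (by rw [hsm]; exact (hJ _ hty).1.le) hrn.le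
        rw [hsm, B', hrn, ← hry] at C
        have hC : c * (1 - t / r) * (r * ‖y‖) = c * (r - t) * ‖y‖ := by
          field_simp
        rw [hC] at C
        rw [B] at A
        have D : c * ((s - r) * ‖y‖) ≤ (s - r) * ‖y‖ :=
          mul_le_of_le_one_left (mul_nonneg (by linarith) hyp.le) hc1
        nlinarith
  · intro y hy1 hy2
    have := hform 0 y (by simpa using hy1) (by simpa using hy2)
    simpa using this
  · intro y
    by_cases hy : y = 0
    · subst hy; simp [hR0]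
    have hay : ‖a • y‖ = a * ‖y‖ := by rw [norm_smul, Real.norm_of_nonneg ha.le]
    have f1 := hform (J y) y (hJ y hy).1.le (hJ y hy).2
    have f2 := hform (J y + 1) (a • y)
      (by rw [hay, hsucc (J y + 1), mul_comm]; exact mul_le_mul_of_nonneg_left (hJ y hy).1.le ha.le)
      (by rw [hay, hsucc, mul_comm]; exact mul_le_mul_of_nonneg_right (hJ y hy).2 ha.le)
    rw [f1, f2, smul_smul, show a ^ (-(J y + 1)) * a = a ^ (-(J y)) by
      rw [← zpow_add_one₀ ha.ne']; congr 1; ring, hsucc]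
    ring

end Pool.Agent.Helper95.RQ
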